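import Pool.Agent.H854Z.LN.Main

/-- Every computable real function that reflects `Δ¹₁`-randomness has Luzin's property (N). -/
theorem Pool.Agent.Results.MP_a8cc1b_lc.ReflectsImpliesN.result (f : ℝ → ℝ)
    (hf : Pool.Agent.H854Z.LN.ComputableFn f) (hr : Pool.Agent.H854Z.LN.ReflectsRandomness f) :
    Pool.Agent.H854Z.LN.LuzinN f :=
  Pool.Agent.H854Z.LN.luzin_of_reflects hf hr
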